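import Pool.Agent.H48.ER.Targets

/-!
Module CLS: if the prism does not continue above `t` then it is closed by another piece.
-/

set_option autoImplicit false

open Pool.Agent.H48.ER

namespace Pool.Agent.H45.ER

theorem pf_CLS (hDES : T_DES) (hKB : T_KB) (hPF : T_PF) : T_CLS := by
  intro V _ G S H f t u a b n P c J hctx hpc hut hPc hup
  obtain ⟨kb1, kb2, kb3, kb4⟩ := hKB V G a b n P c J _ _ hPc
  obtain ⟨d1, d2, d3, d4, d5, d6⟩ := hDES V H f hctx.peo t
  obtain ⟨h, hh, hth⟩ := kb2 t (d3 u hut).2.2.1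
  have hH : H.Adj t h := hctx.le hth
  have hne : f h ≠ f t := fun e => (G.ne_of_adj hth) (hctx.peo.inj e).symm
  have hlt : f h < f t := by
    rcases Nat.lt_or_ge (f t) (f h) with h1 | h1
    · exact absurd hh (hup h ⟨hH, h1⟩)
    · omega
  obtain ⟨u1, hu1, hhu⟩ := d4 h hH hlt
  have hsub : kb P (dn H f u) (upper H f u) ⊆ dn H f u1 := by
    apply kb3 (dn H f u1) ⟨h, hh, hhu⟩
    intro x hx _ w hw hxw
    rcases (hDES V H f hctx.peo u1).2.1 x hx w (hctx.le hxw) with h1 | h1
    · exact h1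
    · exfalso
      rcases (d3 u1 hu1).2.2.2 h1 with h2 | h2
      · rw [h2] at hw
        exact hw.2 (Or.inr (d3 u hut).2.2.1)
      · exact hup w h2 hw
  have hfin : (dn H f u1).Finite := Set.toFinite _
  obtain ⟨a', b', n', P', c', J', hPc'⟩ := hpc u1 hu1
  have hcard : (dn H f u1).ncard ≤ 3 := by
    rw [(hPF V G a' b' n' P' c' J' _ _ hPc').2.2.1]
    exact (Finset.card_le_univ J').trans (by simp)
  have hk3 : (kb P (dn H f u) (upper H f u)).ncard ≤ 3 :=
    (Set.ncard_le_ncard hsub hfin).trans hcard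
  obtain ⟨r1, r2, r3⟩ := kb4 hk3
  have hbinj : Function.Injective b := by
    intro i j e
    by_contra hij
    have h1 := (hPc.pr.1.ip i).right_mem
    have h2 := (hPc.pr.1.ip j).right_mem
    rw [e] at h1
    exact Set.disjoint_left.1 (hPc.pr.1.dis i j hij) h1 h2
  have hk : (kb P (dn H f u) (upper H f u)).ncard = 3 := by
    rw [r3]
    have h1 : {v | ∃ i, v = b i} = b '' Set.univ := by
      ext v
      constructor
      · rintro ⟨i, rfl⟩
        exact ⟨i, trivial, rfl⟩
      · rintro ⟨i, -, rfl⟩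
        exact ⟨i, rfl⟩
    rw [h1, Set.ncard_image_of_injective _ hbinj, Set.ncard_univ]
    simp
  have heq : kb P (dn H f u) (upper H f u) = dn H f u1 :=
    Set.eq_of_subset_of_ncard_le hsub (by rw [hk]; exact hcard) hfin
  refine ⟨r1, r2, u1, hu1, ?_, heq.symm, r3⟩
  rintro rfl
  exact hh.2 (Or.inl hhu)

end Pool.Agent.H45.ER
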